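import Pool.Agent.Helper63K9.PL.All

/-! # The number of robust limit cycles is polylogarithmic in the degree

Every planar polynomial system of degree at most `n` is at relative distance at most `ε` from a system
with at most `K (1 + log (n / ε)) ^ 7 / ε` closed orbits in the plane. So at most that many limit
cycles of a system persist under all perturbations of relative size `ε`. -/

open Set
open scoped ENNReal

namespace Pool.Agent.Results.MP_95e7ec_an.RobustPolylog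

/-- `S` is a set of exponents `(i,j)` with `i + j ≤ n` which contains the three corners `(0,0)`,
`(n,0)`, `(0,n)` and the points of the edges at distance one and two from the corners; for `n ≥ 2` for
instance the set of all `(i,j)` with `i + j ≤ n`. -/
def Admissible (n : ℕ) (S : Finset (ℕ × ℕ)) : Prop :=
  (∀ m ∈ S, m.1 + m.2 ≤ n) ∧
    ((0, 0) ∈ S ∧ (1, 0) ∈ S ∧ (2, 0) ∈ S ∧ (0, 1) ∈ S ∧ (0, 2) ∈ S) ∧
    ((n, 0) ∈ S ∧ (n - 1, 0) ∈ S ∧ (n - 2, 0) ∈ S ∧ (n - 1, 1) ∈ S ∧ (n - 2, 2) ∈ S) ∧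
    ((0, n) ∈ S ∧ (0, n - 1) ∈ S ∧ (0, n - 2) ∈ S ∧ (1, n - 1) ∈ S ∧ (2, n - 2) ∈ S)

/-- The vector field `(∑ a_{ij} x^i y^j, ∑ b_{ij} x^i y^j)`, `(i,j) ∈ S`, where
`c (i,j) = (a_{ij}, b_{ij})`. -/
def field (S : Finset (ℕ × ℕ)) (c : S → ℝ × ℝ) (z : ℝ × ℝ) : ℝ × ℝ :=
  (∑ m : S, (c m).1 * (z.1 ^ m.1.1 * z.2 ^ m.1.2), ∑ m : S, (c m).2 * (z.1 ^ m.1.1 * z.2 ^ m.1.2))

/-- all nonconstant closed orbits (limit cycles or not) of the system in the plane `ℝ²` -/
def closedOrbits (S : Finset (ℕ × ℕ)) (c : S → ℝ × ℝ) : Set (Set (ℝ × ℝ)) :=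
  {C : Set (ℝ × ℝ) | ∃ γ : ℝ → ℝ × ℝ, ∃ T : ℝ, 0 < T ∧
    (∀ t : ℝ, HasDerivAt γ (field S c (γ t)) t) ∧ (∀ t : ℝ, γ (t + T) = γ t) ∧
    (∃ s t : ℝ, γ s ≠ γ t) ∧ C = Set.range γ}

/-- the Euclidean length of the vector of all coefficients -/
noncomputable def size (S : Finset (ℕ × ℕ)) (c : S → ℝ × ℝ) : ℝ :=
  √(∑ m : S, ((c m).1 ^ 2 + (c m).2 ^ 2))

/-- the perturbations of `c₀` of relative size `ε` -/
def ball (S : Finset (ℕ × ℕ)) (c₀ : S → ℝ × ℝ) (ε : ℝ) : Set (S → ℝ × ℝ) :=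
  {c | size S (c - c₀) ≤ ε * size S c₀}

/-- The set `A` of closed orbits of the system `c₀` persists under all perturbations of relative size
`ε`: there are, for every `C ∈ A`, a family `γ C c` of nonconstant periodic solutions of the
systems `c` and a family `T C c` of periods, both continuous on the ball of radius `ε |c₀|` about
`c₀`, such that `C` is the range of `γ C c₀` and the closed orbits of `c` which belong to different
elements of `A` are different. -/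
def Persists (S : Finset (ℕ × ℕ)) (c₀ : S → ℝ × ℝ) (ε : ℝ) (A : Set (Set (ℝ × ℝ))) : Prop :=
  ∃ (γ : Set (ℝ × ℝ) → (S → ℝ × ℝ) → ℝ → ℝ × ℝ) (T : Set (ℝ × ℝ) → (S → ℝ × ℝ) → ℝ),
    (∀ C ∈ A, Set.range (γ C c₀) = C ∧
      ContinuousOn (fun q : (S → ℝ × ℝ) × ℝ => γ C q.1 q.2) (ball S c₀ ε ×ˢ univ) ∧
      ContinuousOn (T C) (ball S c₀ ε) ∧
      ∀ c ∈ ball S c₀ ε, 0 < T C c ∧ (∀ t, HasDerivAt (γ C c) (field S c (γ C c t)) t) ∧
        (∀ t, γ C c (t + T C c) = γ C c t) ∧ ∃ s t, γ C c s ≠ γ C c t) ∧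
    ∀ c ∈ ball S c₀ ε, ∀ C ∈ A, ∀ D ∈ A, Set.range (γ C c) = Set.range (γ D c) → C = D

lemma field_eq (S : Finset (ℕ × ℕ)) (c : S → ℝ × ℝ) : field S c = H709R2.fld c := by
  funext p
  unfold field H709R2.fld
  ext
  · simp only [Prod.fst_sum, Prod.smul_fst, smul_eq_mul]
    exact Finset.sum_congr rfl fun m _ => mul_comm _ _
  · simp only [Prod.snd_sum, Prod.smul_snd, smul_eq_mul]
    exact Finset.sum_congr rfl fun m _ => mul_comm _ _

lemma closedOrbits_eq (S : Finset (ℕ × ℕ)) (c : S → ℝ × ℝ) :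
    (((closedOrbits S c).encard : ℕ∞) : ℝ≥0∞) = H709R2.NP c := by
  unfold H709R2.NP closedOrbits H709R2.ClosedOrbit
  rw [field_eq]

/-- There is a constant `K` with the following property. Let `S` be an admissible set of exponents of
degree at most `n` (for `n ≥ 2` for example all exponents of degree at most `n`), let `c₀` be any
system with exponents in `S` and `0 < ε ≤ 1`. Then
* there is a system `c` with exponents in `S` and `|c - c₀| ≤ ε |c₀|` which has at most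
  `K (1 + log (n / ε)) ^ 7 / ε` closed orbits in the plane;
* hence every set of closed orbits of `c₀` which persists under all perturbations of relative size `ε`
  has at most `K (1 + log (n / ε)) ^ 7 / ε` elements. -/
theorem result : ∃ K : ℝ, 0 < K ∧ ∀ (n : ℕ) (S : Finset (ℕ × ℕ)), Admissible n S →
    ∀ (c₀ : S → ℝ × ℝ) (ε : ℝ), 0 < ε → ε ≤ 1 →
    (∃ c ∈ ball S c₀ ε, (((closedOrbits S c).encard : ℕ∞) : ℝ≥0∞) ≤
      ENNReal.ofReal (K * (1 + Real.log (n / ε)) ^ 7 / ε)) ∧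
    ∀ A : Set (Set (ℝ × ℝ)), Persists S c₀ ε A →
      ((A.encard : ℕ∞) : ℝ≥0∞) ≤ ENNReal.ofReal (K * (1 + Real.log (n / ε)) ^ 7 / ε) := by
  refine ⟨Helper63K9.PL.KN, by unfold Helper63K9.PL.KN; norm_num, ?_⟩
  intro n S hS c₀ ε hε hε1
  obtain ⟨h0, ⟨a0, a1, a2, a3, a4⟩, ⟨b0, b1, b2, b3, b4⟩, ⟨d0, d1, d2, d3, d4⟩⟩ := hS
  have hF : TH275.KL.Full2 n S := ⟨⟨h0, a0, a1, a3, b0, b1, b3, d0, d1, d3⟩, a2, a4, b2, b4, d2, d4⟩
  have hsize : ∀ c : S → ℝ × ℝ, size S c = √(W960.HR.sn c) := fun c => rfl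
  have key : ∃ c ∈ ball S c₀ ε, (((closedOrbits S c).encard : ℕ∞) : ℝ≥0∞) ≤
      ENNReal.ofReal (Helper63K9.PL.KN * (1 + Real.log (n / ε)) ^ 7 / ε) := by
    rcases (W960.HR.sn_nonneg c₀).lt_or_eq with hc | hc
    · obtain ⟨c, hc1, hc2⟩ := Helper63K9.PL.nearP Helper63K9.PL.lv hF hc hε hε1
      refine ⟨c, ?_, ?_⟩
      · show size S (c - c₀) ≤ ε * size S c₀
        rw [hsize, hsize]
        refine (Real.sqrt_le_sqrt hc1).trans (le_of_eq ?_)
        rw [Real.sqrt_mul (by positivity), Real.sqrt_sq hε.le]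
      · rw [closedOrbits_eq]
        exact hc2
    · have hz : c₀ = 0 := by
        funext m
        have h1 : ∑ m : S, ((c₀ m).1 ^ 2 + (c₀ m).2 ^ 2) = 0 := hc.symm
        rw [Finset.sum_eq_zero_iff_of_nonneg fun m _ => by positivity] at h1
        have h2 := h1 m (Finset.mem_univ m)
        have h3 : (c₀ m).1 = 0 := by nlinarith [sq_nonneg (c₀ m).1, sq_nonneg (c₀ m).2]
        have h4 : (c₀ m).2 = 0 := by nlinarith [sq_nonneg (c₀ m).1, sq_nonneg (c₀ m).2]
        exact Prod.ext h3 h4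
      refine ⟨c₀, ?_, ?_⟩
      · show size S (c₀ - c₀) ≤ ε * size S c₀
        rw [hz]
        simp [size]
      · have he : closedOrbits S c₀ = ∅ := by
          rw [Set.eq_empty_iff_forall_notMem]
          rintro C ⟨γ, T, -, hγ, -, ⟨s, t, hst⟩, -⟩
          apply hst
          refine is_const_of_deriv_eq_zero (f := γ) (fun u => (hγ u).differentiableAt)
            (fun u => ?_) s t
          rw [(hγ u).deriv, hz]
          simp [field]
        rw [he]
        simp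
  refine ⟨key, fun A hA => ?_⟩
  obtain ⟨c, hc, hN⟩ := key
  obtain ⟨γ, T, h1, h2⟩ := hA
  refine le_trans (ENat.toENNReal_le.2 ?_) hN
  refine Set.encard_le_encard_of_injOn (f := fun C => Set.range (γ C c)) ?_ ?_
  · intro C hC
    obtain ⟨k1, k2, k3, k4⟩ := (h1 C hC).2.2.2 c hc
    exact ⟨γ C c, T C c, k1, k2, k3, k4, rfl⟩
  · intro C hC D hD hCD
    exact h2 c hc C hC D hD hCD

end Pool.Agent.Results.MP_95e7ec_an.RobustPolylog
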