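import Pool.Agent.Helper63K9.PL.All

/-! # Smoothed analysis of the number of limit cycles: a polylogarithmic bound

For every planar polynomial system of degree at most `n`: after adding independent Gaussian noise of
standard deviation `σ` to all coefficients the expected number of all closed orbits in the plane is
at most `2 * 10 ^ 36 * X * (1 + log (n X)) ^ 7` with `X = 1 + |c₀| / σ`. -/

open Set MeasureTheory
open scoped ENNReal

namespace Pool.Agent.Results.MP_95e7ec_an.SmoothedPolylog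

/-- `S` is a set of exponents `(i,j)` with `i + j ≤ n` which contains the three corners `(0,0)`,
`(n,0)`, `(0,n)` and the points of the edges at distance one and two from the corners; for `n ≥ 2` for
instance the set of all `(i,j)` with `i + j ≤ n`. -/
def Admissible (n : ℕ) (S : Finset (ℕ × ℕ)) : Prop :=
  (∀ m ∈ S, m.1 + m.2 ≤ n) ∧
    ((0, 0) ∈ S ∧ (1, 0) ∈ S ∧ (2, 0) ∈ S ∧ (0, 1) ∈ S ∧ (0, 2) ∈ S) ∧
    ((n, 0) ∈ S ∧ (n - 1, 0) ∈ S ∧ (n - 2, 0) ∈ S ∧ (n - 1, 1) ∈ S ∧ (n - 2, 2) ∈ S) ∧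
    ((0, n) ∈ S ∧ (0, n - 1) ∈ S ∧ (0, n - 2) ∈ S ∧ (1, n - 1) ∈ S ∧ (2, n - 2) ∈ S)

/-- The number of all nonconstant closed orbits (limit cycles or not) in the plane `ℝ²` of the system
`x' = ∑ a_{ij} x^i y^j`, `y' = ∑ b_{ij} x^i y^j`, `(i,j) ∈ S`, where `c (i,j) = (a_{ij}, b_{ij})`. -/
noncomputable def closedOrbits (S : Finset (ℕ × ℕ)) (c : S → ℝ × ℝ) : ℝ≥0∞ :=
  (({C : Set (ℝ × ℝ) | ∃ γ : ℝ → ℝ × ℝ, ∃ T : ℝ, 0 < T ∧
    (∀ t : ℝ, HasDerivAt γ
      (∑ m : S, (c m).1 * ((γ t).1 ^ m.1.1 * (γ t).2 ^ m.1.2),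
       ∑ m : S, (c m).2 * ((γ t).1 ^ m.1.1 * (γ t).2 ^ m.1.2)) t) ∧
    (∀ t : ℝ, γ (t + T) = γ t) ∧ (∃ s t : ℝ, γ s ≠ γ t) ∧ C = Set.range γ}.encard : ℕ∞) : ℝ≥0∞)

/-- the Euclidean length of the vector of all coefficients -/
noncomputable def size (S : Finset (ℕ × ℕ)) (c : S → ℝ × ℝ) : ℝ :=
  √(∑ m : S, ((c m).1 ^ 2 + (c m).2 ^ 2))

/-- the system with coefficients `c₀ + σ g` -/
def perturbed (S : Finset (ℕ × ℕ)) (c₀ : S → ℝ × ℝ) (σ : ℝ) (g : S → ℝ × ℝ) : S → ℝ × ℝ :=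
  fun m => ((c₀ m).1 + σ * (g m).1, (c₀ m).2 + σ * (g m).2)

lemma closedOrbits_eq (S : Finset (ℕ × ℕ)) (c : S → ℝ × ℝ) : closedOrbits S c = H709R2.NP c := by
  have h1 : ∀ p : ℝ × ℝ, (∑ m : S, (c m).1 * (p.1 ^ m.1.1 * p.2 ^ m.1.2),
      ∑ m : S, (c m).2 * (p.1 ^ m.1.1 * p.2 ^ m.1.2)) = H709R2.fld c p := by
    intro p
    unfold H709R2.fld
    ext
    · simp only [Prod.fst_sum, Prod.smul_fst, smul_eq_mul]
      exact Finset.sum_congr rfl fun m _ => mul_comm _ _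
    · simp only [Prod.snd_sum, Prod.smul_snd, smul_eq_mul]
      exact Finset.sum_congr rfl fun m _ => mul_comm _ _
  unfold H709R2.NP closedOrbits H709R2.ClosedOrbit
  simp only [h1]

/-- Let `S` be an admissible set of exponents of degree at most `n` (for `n ≥ 2` for example all
exponents of degree at most `n`), `c₀` any system with exponents in `S` and `σ > 0`. The number of
closed orbits is a Borel function of the coefficients. If `g` is a vector of independent standard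
normal variables, the expected number of closed orbits of the system with coefficients `c₀ + σ g` is
at most `2 * 10 ^ 36 * X * (1 + log (n X)) ^ 7`, where `X = 1 + |c₀| / σ`. -/
theorem result (n : ℕ) (S : Finset (ℕ × ℕ)) (hS : Admissible n S) (c₀ : S → ℝ × ℝ) (σ : ℝ)
    (hσ : 0 < σ) :
    Measurable (closedOrbits S) ∧
    ∫⁻ g, closedOrbits S (perturbed S c₀ σ g)
      ∂(Measure.pi fun _ : S =>
        (ProbabilityTheory.gaussianReal 0 1).prod (ProbabilityTheory.gaussianReal 0 1)) ≤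
      ENNReal.ofReal (2 * 10 ^ 36 * (1 + size S c₀ / σ) *
        (1 + Real.log (n * (1 + size S c₀ / σ))) ^ 7) := by
  obtain ⟨h0, ⟨a0, a1, a2, a3, a4⟩, ⟨b0, b1, b2, b3, b4⟩, ⟨d0, d1, d2, d3, d4⟩⟩ := hS
  have hF : TH275.KL.Full2 n S := ⟨⟨h0, a0, a1, a3, b0, b1, b3, d0, d1, d3⟩, a2, a4, b2, b4, d2, d4⟩
  have hc : closedOrbits S = H709R2.NP := funext fun c => closedOrbits_eq S c
  rw [hc]
  refine ⟨H709R2.measurable_NP, ?_⟩
  obtain ⟨h1, h2⟩ := TH275.KL.scale_centre c₀ hσ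
  have h3 := Helper63K9.PL.centredP Helper63K9.PL.lv hF (σ⁻¹ • c₀)
  rw [h1, ← h2] at h3
  exact h3

end Pool.Agent.Results.MP_95e7ec_an.SmoothedPolylog
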