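import Pool.Agent.Helper63K9.PL.All

/-! # The mean number of limit cycles is polylogarithmic for all independent coefficients

For random planar polynomial systems of degree at most `n` with independent coefficient vectors of
arbitrary laws with densities at most `D` and second moments at most `W`, the expected number of all
closed orbits in the plane is at most `4 * 10 ^ 30 * (1 + log (n D W)) ^ 7` if the laws are rotation
invariant; for arbitrary laws this holds for the average over the rotations of the field. -/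

open Set MeasureTheory
open scoped ENNReal

namespace Pool.Agent.Results.MP_95e7ec_an.UniversalPolylog

/-- `S` is a set of exponents `(i,j)` with `i + j ≤ n` which contains the three corners `(0,0)`,
`(n,0)`, `(0,n)` and the points of the edges at distance one and two from the corners; for `n ≥ 2` for
instance the set of all `(i,j)` with `i + j ≤ n`. -/
def Admissible (n : ℕ) (S : Finset (ℕ × ℕ)) : Prop :=
  (∀ m ∈ S, m.1 + m.2 ≤ n) ∧
    ((0, 0) ∈ S ∧ (1, 0) ∈ S ∧ (2, 0) ∈ S ∧ (0, 1) ∈ S ∧ (0, 2) ∈ S) ∧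
    ((n, 0) ∈ S ∧ (n - 1, 0) ∈ S ∧ (n - 2, 0) ∈ S ∧ (n - 1, 1) ∈ S ∧ (n - 2, 2) ∈ S) ∧
    ((0, n) ∈ S ∧ (0, n - 1) ∈ S ∧ (0, n - 2) ∈ S ∧ (1, n - 1) ∈ S ∧ (2, n - 2) ∈ S)

/-- The vector field `(∑ a_{ij} x^i y^j, ∑ b_{ij} x^i y^j)`, `(i,j) ∈ S`, where
`c (i,j) = (a_{ij}, b_{ij})`. -/
def field (S : Finset (ℕ × ℕ)) (c : S → ℝ × ℝ) (z : ℝ × ℝ) : ℝ × ℝ :=
  (∑ m : S, (c m).1 * (z.1 ^ m.1.1 * z.2 ^ m.1.2), ∑ m : S, (c m).2 * (z.1 ^ m.1.1 * z.2 ^ m.1.2))

/-- the number of all nonconstant closed orbits (limit cycles or not) in the plane `ℝ²` -/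
noncomputable def closedOrbits (S : Finset (ℕ × ℕ)) (c : S → ℝ × ℝ) : ℝ≥0∞ :=
  (({C : Set (ℝ × ℝ) | ∃ γ : ℝ → ℝ × ℝ, ∃ T : ℝ, 0 < T ∧
    (∀ t : ℝ, HasDerivAt γ (field S c (γ t)) t) ∧ (∀ t : ℝ, γ (t + T) = γ t) ∧
    (∃ s t : ℝ, γ s ≠ γ t) ∧ C = Set.range γ}.encard : ℕ∞) : ℝ≥0∞)

/-- the rotation of the plane by the angle `α` -/
noncomputable def rotation (α : ℝ) (v : ℝ × ℝ) : ℝ × ℝ :=
  (Real.cos α * v.1 - Real.sin α * v.2, Real.sin α * v.1 + Real.cos α * v.2)

lemma field_eq (S : Finset (ℕ × ℕ)) (c : S → ℝ × ℝ) : field S c = H709R2.fld c := by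
  funext p
  unfold field H709R2.fld
  ext
  · simp only [Prod.fst_sum, Prod.smul_fst, smul_eq_mul]
    exact Finset.sum_congr rfl fun m _ => mul_comm _ _
  · simp only [Prod.snd_sum, Prod.smul_snd, smul_eq_mul]
    exact Finset.sum_congr rfl fun m _ => mul_comm _ _

lemma closedOrbits_eq (S : Finset (ℕ × ℕ)) (c : S → ℝ × ℝ) : closedOrbits S c = H709R2.NP c := by
  unfold H709R2.NP closedOrbits H709R2.ClosedOrbit
  rw [field_eq]

/-- Let `S` be an admissible set of exponents of degree at most `n` (for `n ≥ 2`, for example all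
exponents of degree at most `n`), and let the coefficient vectors `c (i,j) = (a_{ij}, b_{ij})`,
`(i,j) ∈ S`, be independent with laws `μ (i,j)` of density at most `D` and second moment at most `W`,
where `D, W ≥ 1`. Then
* the number of closed orbits in the plane is a Borel function of the coefficients, and the integral
  over all angles `α` in `(0, π)` of the expected number of closed orbits of the field rotated by `α`
  is at most `10 ^ 31 * (1 + log (n D W)) ^ 7`;
* if all the laws are invariant under rotations, the expected number of closed orbits is at most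
  `4 * 10 ^ 30 * (1 + log (n D W)) ^ 7`. -/
theorem result (n : ℕ) (S : Finset (ℕ × ℕ)) (hS : Admissible n S) (μ : S → Measure (ℝ × ℝ))
    [∀ m, IsProbabilityMeasure (μ m)] (D W : ℝ) (hD1 : 1 ≤ D) (hW1 : 1 ≤ W)
    (hD : ∀ m (B : Set (ℝ × ℝ)), μ m B ≤ ENNReal.ofReal D * volume B)
    (hW : ∀ m, ∫⁻ w, ENNReal.ofReal (w.1 ^ 2 + w.2 ^ 2) ∂μ m ≤ ENNReal.ofReal W) :
    Measurable (closedOrbits S) ∧
    ∫⁻ c, (∫⁻ α in Ioo 0 Real.pi, closedOrbits S (fun m => rotation α (c m))) ∂Measure.pi μ ≤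
      ENNReal.ofReal (10 ^ 31 * (1 + Real.log (n * D * W)) ^ 7) ∧
    ((∀ m α, (μ m).map (rotation α) = μ m) →
      ∫⁻ c, closedOrbits S c ∂Measure.pi μ ≤
        ENNReal.ofReal (4 * 10 ^ 30 * (1 + Real.log (n * D * W)) ^ 7)) := by
  obtain ⟨h0, ⟨a0, a1, a2, a3, a4⟩, ⟨b0, b1, b2, b3, b4⟩, ⟨d0, d1, d2, d3, d4⟩⟩ := hS
  have hF : TH275.KL.Full2 n S := ⟨⟨h0, a0, a1, a3, b0, b1, b3, d0, d1, d3⟩, a2, a4, b2, b4, d2, d4⟩
  have hc : closedOrbits S = H709R2.NP := funext fun c => closedOrbits_eq S c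
  rw [hc]
  exact ⟨H709R2.measurable_NP, Helper63K9.PL.lintegral_phiP Helper63K9.PL.lv hF μ hD1 hW1 hD hW,
    fun hR => Helper63K9.PL.expectedP Helper63K9.PL.lv hF μ hD1 hW1 hD hW hR⟩

end Pool.Agent.Results.MP_95e7ec_an.UniversalPolylog
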